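import Pool.Agent.Helper398.SParts
import Pool.Agent.Helper398.SS.End4

namespace Pool.Agent.Results.MP_fddcb9_nt.EmptySumAllowed

/-- The set `Σ A` of all sums of subsets of `A`, the empty subset included. -/
def subsetSums {p : ℕ} (A : Finset (ZMod p)) : Set (ZMod p) :=
  {x | ∃ B : Finset (ZMod p), B ⊆ A ∧ ∑ a ∈ B, a = x}

/-- The norm `‖A‖`: the sum of the absolute values of the representatives of the elements of `A`
in `[-(p-1)/2, (p-1)/2]`. -/
def norm {p : ℕ} (A : Finset (ZMod p)) : ℤ := ∑ a ∈ A, |a.valMinAbs|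

/-- The dilate `b · A`. -/
def dilate {p : ℕ} (b : ZMod p) (A : Finset (ZMod p)) : Finset (ZMod p) :=
  A.image (fun a => b * a)

/-- **Main result.** The exact inverse theorem for subset sums of critical size, with the empty sum
allowed: for every large prime `p` and every `A ⊆ ℤ_p` of size `⌊2√(p-2)⌋`, `Σ A ≠ ℤ_p` if and only
if some dilate of `A` has norm at most `p - 2`. -/
theorem result :
    ∃ p₀ : ℕ, ∀ p : ℕ, p.Prime → p₀ < p →
      ∀ A : Finset (ZMod p), A.card = ⌊2 * Real.sqrt ((p : ℝ) - 2)⌋₊ →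
        (subsetSums A ≠ Set.univ ↔
          ∃ b : ZMod p, b ≠ 0 ∧ norm (dilate b A) ≤ (p : ℤ) - 2) := by
  obtain ⟨p₀, h⟩ := Pool.Agent.Helper398.SS.assemble
    (Pool.Agent.Helper398.structure_S (1 / 100) (by norm_num)) Pool.Agent.Helper398.zero_Z
  refine ⟨p₀, fun p hp hp0 A hA => ⟨fun hne => ?_, ?_⟩⟩
  · rw [Set.ne_univ_iff_exists_notMem] at hne
    obtain ⟨x, hx⟩ := hne
    exact (h p hp hp0 A hA).1 ⟨x, fun B hB _ hs => hx ⟨B, hB, hs⟩⟩
  · rintro ⟨b, hb, hn⟩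
    haveI : Fact p.Prime := ⟨hp⟩
    obtain ⟨x, hx⟩ := Pool.Agent.Helper398.SS.easy_dir (A.image (fun a => b * a)) hn
    rw [Set.ne_univ_iff_exists_notMem]
    refine ⟨b⁻¹ * x, ?_⟩
    rintro ⟨B, hB, hs⟩
    obtain ⟨B', hB', hs'⟩ := Pool.Agent.Helper398.SS.sums_dilate b hb A B hB
    apply hx B' hB'
    rw [hs']
    change b * ∑ a ∈ B, a = x
    rw [hs, mul_inv_cancel_left₀ hb]

end Pool.Agent.Results.MP_fddcb9_nt.EmptySumAllowed
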